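import Pool.Agent.V1143.EC.Core
import Pool.Agent.H370R2.DirGood
import Pool.Agent.TH487.RP.PV

/-!
The central value of a Dirichlet `L`-function and a Dirichlet polynomial with nonnegative weights.
-/

set_option autoImplicit false

open Finset MeasureTheory

namespace Pool.Agent.V1143.EC

variable {q : ℕ} [hq : Fact q.Prime]

/-- the weights -/
noncomputable def w (N n : ℕ) : ℝ :=
  if n = 0 then 0 else (n : ℝ) ^ (-(1 / 2) : ℝ) - (N : ℝ) ^ (-(1 / 2) : ℝ)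

theorem w_nonneg (N : ℕ) : ∀ n ∈ range (N + 1), 0 ≤ w N n := by
  intro n hn
  unfold w
  split_ifs with h
  · exact le_rfl
  · have h1 : (0 : ℝ) < n := by exact_mod_cast Nat.pos_of_ne_zero h
    have h2 : (n : ℝ) ≤ N := by exact_mod_cast Nat.lt_succ_iff.1 (mem_range.1 hn)
    have := Real.rpow_le_rpow_of_nonpos h1 h2 (show (-(1 / 2) : ℝ) ≤ 0 by norm_num)
    linarith

theorem chi_zero (χ : DirichletCharacter ℂ q) : χ ((0 : ℕ) : ZMod q) = 0 := by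
  rw [Nat.cast_zero]
  exact MulChar.map_zero χ

theorem Icc_zero (χ : DirichletCharacter ℂ q) (n : ℕ) :
    ∑ k ∈ Icc 0 n, χ (k : ZMod q) = ∑ k ∈ Icc 1 n, χ (k : ZMod q) := by
  rw [Icc_eq_cons_Ioc (Nat.zero_le _), sum_cons, chi_zero, zero_add]
  rfl

theorem A_bound (hq2 : q ≠ 2) (χ : DirichletCharacter ℂ q) (hχ : χ ≠ 1) (n : ℕ) :
    ‖∑ k ∈ Icc 1 n, χ (k : ZMod q)‖ ≤ Real.sqrt q * Real.log q := by
  rw [← Icc_zero, ← Nat.range_succ_eq_Icc_zero]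
  exact Pool.Agent.TH487.RP.polya_vinogradov q hq2 χ hχ (n + 1)

theorem abel (χ : DirichletCharacter ℂ q) (N : ℕ) (hN : 1 ≤ N) :
    (1 / 2 : ℂ) * ∫ t in Set.Ioc (1 : ℝ) N,
      (∑ k ∈ Icc 1 ⌊t⌋₊, χ (k : ZMod q)) * (t : ℂ) ^ (-(1 / 2 : ℂ) - 1) = T (w N) N χ := by
  set f : ℝ → ℂ := fun t => (t : ℂ) ^ (-(1 / 2) : ℂ) with hf
  have hder : ∀ t : ℝ, 0 < t → HasDerivAt f (-(1 / 2) * (t : ℂ) ^ (-(1 / 2 : ℂ) - 1)) t := by
    intro t ht
    exact hasDerivAt_ofReal_cpow_const (x := t) ht.ne' (r := -(1 / 2 : ℂ)) (by norm_num)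
  have hcont : ContinuousOn (fun t : ℝ => (-(1 / 2) : ℂ) * (t : ℂ) ^ (-(1 / 2 : ℂ) - 1))
      (Set.Icc (1 : ℝ) N) := by
    intro t ht
    have ht0 : 0 < t := lt_of_lt_of_le one_pos ht.1
    have h1 := hasDerivAt_ofReal_cpow_const (x := t) ht0.ne' (r := -(1 / 2 : ℂ) - 1) (by
      intro h
      have := congrArg Complex.re h
      norm_num at this)
    exact (h1.continuousAt.const_mul _).continuousWithinAt
  have hint : IntegrableOn (deriv f) (Set.Icc (1 : ℝ) N) := by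
    refine (hcont.integrableOn_Icc).congr_fun (fun t ht => ?_) measurableSet_Icc
    exact ((hder t (lt_of_lt_of_le one_pos ht.1)).deriv).symm
  have h1 := sum_mul_eq_sub_integral_mul₀' (f := f) (fun k : ℕ => χ (k : ZMod q)) (chi_zero χ) N
    (fun t ht => (hder t (lt_of_lt_of_le one_pos ht.1)).differentiableAt) hint
  have h2 : ∫ t in Set.Ioc (1 : ℝ) N, deriv f t * ∑ k ∈ Icc 0 ⌊t⌋₊, χ (k : ZMod q) =
      -((1 / 2 : ℂ) * ∫ t in Set.Ioc (1 : ℝ) N,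
      (∑ k ∈ Icc 1 ⌊t⌋₊, χ (k : ZMod q)) * (t : ℂ) ^ (-(1 / 2 : ℂ) - 1)) := by
    rw [← integral_const_mul, ← integral_neg]
    refine setIntegral_congr_fun measurableSet_Ioc fun t ht => ?_
    show deriv f t * ∑ k ∈ Icc 0 ⌊t⌋₊, χ (k : ZMod q) = -(1 / 2 * ((∑ k ∈ Icc 1 ⌊t⌋₊,
      χ (k : ZMod q)) * (t : ℂ) ^ (-(1 / 2 : ℂ) - 1)))
    rw [(hder t (lt_trans one_pos ht.1)).deriv, Icc_zero]
    ring
  rw [h2] at h1
  have h3 : (1 / 2 : ℂ) * ∫ t in Set.Ioc (1 : ℝ) N,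
      (∑ k ∈ Icc 1 ⌊t⌋₊, χ (k : ZMod q)) * (t : ℂ) ^ (-(1 / 2 : ℂ) - 1) =
      ∑ k ∈ Icc 0 N, f k * χ (k : ZMod q) - f N * ∑ k ∈ Icc 0 N, χ (k : ZMod q) := by
    rw [h1]
    ring
  rw [h3, T, Nat.range_succ_eq_Icc_zero, mul_sum, ← sum_sub_distrib]
  refine sum_congr rfl fun k _ => ?_
  by_cases hk : k = 0
  · subst hk
    rw [chi_zero]
    ring
  · unfold w
    rw [if_neg hk, hf]
    simp only
    push_cast
    rw [Complex.ofReal_cpow (Nat.cast_nonneg k), Complex.ofReal_cpow (Nat.cast_nonneg N)]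
    push_cast
    ring

theorem approx (hq2 : q ≠ 2) (χ : DirichletCharacter ℂ q) (hχ : χ ≠ 1) (N : ℕ) (hN : 1 ≤ N) :
    ‖DirichletCharacter.LFunction χ (1 / 2) - T (w N) N χ‖ ≤
      Real.sqrt q * Real.log q * (N : ℝ) ^ (-(1 / 2) : ℝ) := by
  set K := Real.sqrt q * Real.log q with hK
  set A : ℝ → ℂ := fun u => ∑ k ∈ Icc 1 ⌊u⌋₊, χ (k : ZMod q) with hA
  have hN0 : (0 : ℝ) < N := by exact_mod_cast hN
  have hN1 : (1 : ℝ) ≤ N := by exact_mod_cast hN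
  have hAm : Measurable A :=
    (measurable_from_nat (f := fun n : ℕ => ∑ k ∈ Finset.Icc 1 n, χ (k : ZMod q))).comp
      Nat.measurable_floor
  have hAb : ∀ u, ‖A u‖ ≤ K := fun u => A_bound hq2 χ hχ _
  have hK0 : 0 ≤ K := (norm_nonneg _).trans (hAb 0)
  have hpt : ∀ u : ℝ, 0 < u → ‖A u * (u : ℂ) ^ (-(1 / 2 : ℂ) - 1)‖ ≤ K * u ^ (-(3 / 2) : ℝ) := by
    intro u hu
    rw [norm_mul, Complex.norm_cpow_eq_rpow_re_of_pos hu]
    have : (-(1 / 2 : ℂ) - 1).re = -(3 / 2) := by norm_num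
    rw [this]
    exact mul_le_mul_of_nonneg_right (hAb u) (by positivity)
  have hmeas : ∀ a : ℝ, AEStronglyMeasurable (fun u : ℝ => A u * (u : ℂ) ^ (-(1 / 2 : ℂ) - 1))
      (volume.restrict (Set.Ioi a)) := by
    intro a
    refine (hAm.mul ?_).aestronglyMeasurable
    exact (Complex.measurable_ofReal.pow_const _)
  have hint1 : IntegrableOn (fun u : ℝ => A u * (u : ℂ) ^ (-(1 / 2 : ℂ) - 1)) (Set.Ioi (1 : ℝ)) := by
    refine Integrable.mono' ((integrableOn_Ioi_rpow_of_lt (show (-(3 / 2) : ℝ) < -1 by norm_num)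
      zero_lt_one).const_mul K) (hmeas 1) ?_
    exact (ae_restrict_iff' measurableSet_Ioi).2
      (Filter.Eventually.of_forall fun u hu => hpt u (lt_trans one_pos hu))
  have h1 := H370.DL.L_integral (χ := χ) hχ (s := 1 / 2) (by norm_num)
  have hsplit : ∫ u in Set.Ioi (1 : ℝ), A u * (u : ℂ) ^ (-(1 / 2 : ℂ) - 1) =
      (∫ u in Set.Ioc (1 : ℝ) N, A u * (u : ℂ) ^ (-(1 / 2 : ℂ) - 1)) +
      ∫ u in Set.Ioi (N : ℝ), A u * (u : ℂ) ^ (-(1 / 2 : ℂ) - 1) := by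
    rw [← Set.Ioc_union_Ioi_eq_Ioi hN1, setIntegral_union Set.Ioc_disjoint_Ioi_same
      measurableSet_Ioi (hint1.mono_set (Set.Ioc_subset_Ioi_self))
      (hint1.mono_set (Set.Ioi_subset_Ioi hN1))]
  have h2 : DirichletCharacter.LFunction χ (1 / 2) - T (w N) N χ =
      (1 / 2 : ℂ) * ∫ u in Set.Ioi (N : ℝ), A u * (u : ℂ) ^ (-(1 / 2 : ℂ) - 1) := by
    rw [h1, ← abel χ N hN]
    have h3 := hsplit
    rw [hA] at h3 ⊢
    simp only at h3 ⊢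
    rw [h3]
    ring
  rw [h2, norm_mul]
  have h4 : ‖∫ u in Set.Ioi (N : ℝ), A u * (u : ℂ) ^ (-(1 / 2 : ℂ) - 1)‖ ≤
      ∫ u in Set.Ioi (N : ℝ), K * u ^ (-(3 / 2) : ℝ) := by
    refine norm_integral_le_of_norm_le ?_ ?_
    · exact (integrableOn_Ioi_rpow_of_lt (by norm_num) hN0).const_mul K
    · exact (ae_restrict_iff' measurableSet_Ioi).2
        (Filter.Eventually.of_forall fun u hu => hpt u (lt_trans hN0 hu))
  rw [integral_const_mul, integral_Ioi_rpow_of_lt (by norm_num) hN0] at h4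
  have h5 : ‖(1 / 2 : ℂ)‖ = 1 / 2 := by norm_num
  rw [h5]
  have h6 : K * (-(N : ℝ) ^ (-(3 / 2) + 1 : ℝ) / (-(3 / 2) + 1)) = 2 * (K * (N : ℝ) ^ (-(1 / 2) : ℝ)) := by
    rw [show (-(3 / 2) + 1 : ℝ) = -(1 / 2) by norm_num]
    ring
  rw [h6] at h4
  linarith

end Pool.Agent.V1143.EC
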