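import Pool.Agent.V1143.EC.Fin

/-!
The choice of the parameters.
-/

set_option autoImplicit false

open Finset Filter

namespace Pool.Agent.V1143.EC

theorem params : ∀ᶠ x : ℝ in atTop, ∃ B m k : ℕ, 1 ≤ B ∧ (B : ℝ) < Real.exp x ∧
    m ≤ Nat.primeCounting B ∧ 1 ≤ k ∧ 12 * k * Real.sqrt B ≤ m ∧
    4 * ((B ^ k : ℕ) : ℝ) ≤ Real.exp x ∧ 9 ^ m * 8 ≤ Real.exp x ∧
    Real.exp (1 / 200 * Real.sqrt (x / Real.log x)) + 2 < 1 / 2 * Real.exp k := by
  have e1 : ∀ᶠ x : ℝ in atTop, 6 ≤ Real.log x := Real.tendsto_log_atTop.eventually_ge_atTop 6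
  have e2 : ∀ᶠ x : ℝ in atTop, 1000 ≤ x := eventually_ge_atTop 1000
  have e3 : ∀ᶠ x : ℝ in atTop, 1152 ≤ Real.sqrt (x / Real.log x) := by
    have h1 : Tendsto (fun x : ℝ => x / Real.log x) atTop atTop := by
      have h2 : Tendsto (fun x : ℝ => Real.log x / x) atTop (nhdsWithin 0 (Set.Ioi 0)) := by
        rw [tendsto_nhdsWithin_iff]
        refine ⟨Real.isLittleO_log_id_atTop.tendsto_div_nhds_zero, ?_⟩
        filter_upwards [e1, e2] with x h1 h2
        have h4 : 0 < Real.log x := by linarith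
        have h5 : 0 < x := by linarith
        exact div_pos h4 h5
      have h3 := h2.inv_tendsto_nhdsGT_zero
      refine h3.congr fun x => ?_
      rw [Pi.inv_apply, inv_div]
    exact (Real.tendsto_sqrt_atTop.comp h1).eventually_ge_atTop 1152
  filter_upwards [e1, e2, e3] with x hl hx ht
  set l := Real.log x with hldef
  have hx0 : 0 < x := by linarith
  have hl0 : 0 < l := by linarith
  have hlx : l ≤ x := (Real.log_le_sub_one_of_pos hx0).trans (by linarith)
  set B : ℕ := ⌊x * l / 5⌋₊ with hB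
  have hB1 : (B : ℝ) ≤ x * l / 5 := Nat.floor_le (by positivity)
  have hB2 : x * l / 5 - 1 < B := by
    have := Nat.lt_floor_add_one (x * l / 5)
    linarith
  have hB3 : x * l / 6 ≤ B := by nlinarith
  have hBx : x ≤ B := by nlinarith
  have hB0 : (0 : ℝ) < B := by linarith
  have hBxx : (B : ℝ) ≤ x ^ 2 := by nlinarith
  have hBnat : 1 ≤ B := by
    have : (0 : ℝ) < B := hB0
    exact_mod_cast this
  set L := Real.log (B : ℝ) with hL
  have hLl : l ≤ L := Real.log_le_log hx0 hBx
  have hL0 : 0 < L := by linarith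
  have hL2 : L ≤ 2 * l := by
    have := Real.log_le_log hB0 hBxx
    rw [Real.log_pow] at this
    exact_mod_cast this
  set m : ℕ := ⌊(B : ℝ) / (2 * L)⌋₊ with hm
  have hm1 : (m : ℝ) ≤ B / (2 * L) := Nat.floor_le (by positivity)
  have hm2 : (B : ℝ) / (2 * L) - 1 < m := by
    have := Nat.lt_floor_add_one ((B : ℝ) / (2 * L))
    linarith
  have hsB : 0 < Real.sqrt B := Real.sqrt_pos.2 hB0
  have hsB1 : 1 ≤ Real.sqrt B := by
    rw [show (1 : ℝ) = Real.sqrt 1 by simp]
    exact Real.sqrt_le_sqrt (by linarith)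
  have hsq : Real.sqrt B * Real.sqrt B = B := Real.mul_self_sqrt hB0.le
  set k : ℕ := ⌊(m : ℝ) / (12 * Real.sqrt B)⌋₊ with hk
  have hk1 : (k : ℝ) ≤ m / (12 * Real.sqrt B) := Nat.floor_le (by positivity)
  have hk2 : (m : ℝ) / (12 * Real.sqrt B) - 1 < k := by
    have := Nat.lt_floor_add_one ((m : ℝ) / (12 * Real.sqrt B))
    linarith
  -- the lower bound for `k`
  set t := Real.sqrt (x / l) with htdef
  have ht0 : 0 < t := by linarith
  have hkt : t / 118 - 2 ≤ k := by
    have h1 : Real.sqrt B / (24 * L) - 1 / (12 * Real.sqrt B) ≤ (m : ℝ) / (12 * Real.sqrt B) := by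
      rw [le_div_iff₀ (by positivity)]
      have h2 : (Real.sqrt B / (24 * L) - 1 / (12 * Real.sqrt B)) * (12 * Real.sqrt B) =
          (B : ℝ) / (2 * L) - 1 := by
        nth_rewrite 4 [← hsq]
        field_simp
        ring
      rw [h2]
      exact hm2.le
    have h3 : 1 / (12 * Real.sqrt B) ≤ 1 := by
      rw [div_le_one (by positivity)]
      linarith
    have h4 : t / 118 ≤ Real.sqrt B / (24 * L) := by
      have h5 : Real.sqrt B / (48 * l) ≤ Real.sqrt B / (24 * L) :=
        div_le_div_of_nonneg_left hsB.le (by positivity) (by linarith)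
      refine le_trans ?_ h5
      have h6 : Real.sqrt (x * l / 6) ≤ Real.sqrt B := Real.sqrt_le_sqrt hB3
      have h7 : 48 / 118 * (t * l) ≤ Real.sqrt (x * l / 6) := by
        refine Real.le_sqrt_of_sq_le ?_
        have h8 : t ^ 2 = x / l := Real.sq_sqrt (by positivity)
        have h9 : (48 / 118 * (t * l)) ^ 2 = (48 / 118) ^ 2 * (x * l) := by
          rw [mul_pow, mul_pow, h8]
          field_simp
        rw [h9]
        nlinarith [mul_pos hx0 hl0]
      rw [div_le_div_iff₀ (by norm_num) (by positivity)]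
      nlinarith
    linarith
  have hk5 : 1 / 200 * t + 2 ≤ k := by linarith
  refine ⟨B, m, k, hBnat, ?_, ?_, ?_, ?_, ?_, ?_, ?_⟩
  · have h1 := Real.add_one_le_exp (x / 4)
    have h2 : Real.exp x = Real.exp (x / 4) ^ 4 := by
      rw [← Real.exp_nat_mul]
      congr 1
      push_cast
      ring
    have h3 : (x / 4) ^ 4 < Real.exp (x / 4) ^ 4 :=
      pow_lt_pow_left₀ (by linarith) (by positivity) (by norm_num)
    rw [h2]
    refine lt_of_le_of_lt (hBxx.trans ?_) h3
    have h4 : (x / 4) ^ 4 = x ^ 2 * (x ^ 2 / 256) := by ring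
    rw [h4]
    have h5 : 1 ≤ x ^ 2 / 256 := by
      rw [le_div_iff₀ (by norm_num)]
      nlinarith
    nlinarith [sq_nonneg x]
  · have h1 := Chebyshev.psi_ge B
    have h2 := Chebyshev.psi_le_primeCounting_mul_log B
    have h3 : Real.log ((B : ℝ) + 1) ≤ 19 / 100 * B := by
      have h4 : Real.log ((B : ℝ) + 1) = 2 * Real.log (Real.sqrt ((B : ℝ) + 1)) := by
        rw [Real.log_sqrt (by positivity)]
        ring
      have h5 := Real.log_le_sub_one_of_pos (Real.sqrt_pos.2 (show (0 : ℝ) < (B : ℝ) + 1 by positivity))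
      have h6 : Real.sqrt ((B : ℝ) + 1) ≤ 19 / 200 * B := by
        rw [Real.sqrt_le_left (by positivity)]
        nlinarith
      linarith
    have h4 := Real.log_two_gt_d9
    have h5 : (B : ℝ) / 2 ≤ Nat.primeCounting B * L := by
      nlinarith
    have h6 : (m : ℝ) ≤ Nat.primeCounting B := by
      refine hm1.trans ?_
      rw [div_le_iff₀ (by positivity)]
      linarith
    exact_mod_cast h6
  · have : (1 : ℝ) ≤ k := by linarith
    exact_mod_cast this
  · rw [le_div_iff₀ (by positivity)] at hk1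
    linarith
  · have hkL : k * L ≤ x / 24 := by
      have h1 : (k : ℝ) ≤ Real.sqrt B / (24 * L) := by
        refine hk1.trans ?_
        rw [div_le_div_iff₀ (by positivity) (by positivity)]
        rw [le_div_iff₀ (by positivity)] at hm1
        nlinarith
      have h2 : (k : ℝ) * L ≤ Real.sqrt B / 24 := by
        rw [le_div_iff₀ (by positivity)] at h1
        linarith
      have h3 : Real.sqrt B ≤ x := by
        rw [Real.sqrt_le_left hx0.le]
        exact hBxx
      linarith
    have h1 : ((B ^ k : ℕ) : ℝ) = Real.exp (k * L) := by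
      rw [Nat.cast_pow, mul_comm, Real.exp_mul, hL, Real.exp_log hB0, Real.rpow_natCast]
    have h2 : (4 : ℝ) ≤ Real.exp 2 := by
      have := Real.add_one_le_exp (1 : ℝ)
      have h3 : Real.exp 2 = Real.exp 1 * Real.exp 1 := by
        rw [← Real.exp_add]
        norm_num
      nlinarith
    rw [h1]
    calc 4 * Real.exp (k * L) ≤ Real.exp 2 * Real.exp (k * L) :=
          mul_le_mul_of_nonneg_right h2 (Real.exp_pos _).le
      _ = Real.exp (2 + k * L) := by rw [Real.exp_add]
      _ ≤ Real.exp x := Real.exp_le_exp.2 (by linarith)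
  · have hmx : (m : ℝ) ≤ x / 10 := by
      refine hm1.trans ?_
      rw [div_le_div_iff₀ (by positivity) (by norm_num)]
      nlinarith
    have h9 : (9 : ℝ) ≤ Real.exp 3 := by
      have h1 := Real.exp_one_gt_d9
      have h3 : Real.exp 3 = Real.exp 1 * Real.exp 1 * Real.exp 1 := by
        rw [← Real.exp_add, ← Real.exp_add]
        norm_num
      have h4 : (2.7 : ℝ) ≤ Real.exp 1 := by linarith
      have h5 : (2.7 : ℝ) * 2.7 ≤ Real.exp 1 * Real.exp 1 := by nlinarith
      rw [h3]
      nlinarith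
    have h8 : (8 : ℝ) ≤ Real.exp 3 := by linarith
    calc (9 : ℝ) ^ m * 8 ≤ Real.exp 3 ^ m * Real.exp 3 :=
          mul_le_mul (pow_le_pow_left₀ (by norm_num) h9 m) h8 (by norm_num) (by positivity)
      _ = Real.exp (m * 3 + 3) := by rw [Real.exp_add, ← Real.exp_nat_mul]
      _ ≤ Real.exp x := Real.exp_le_exp.2 (by linarith)
  · have h1 : Real.exp (1 / 200 * t + 2) ≤ Real.exp k := Real.exp_le_exp.2 hk5
    rw [Real.exp_add] at h1
    have h2 : (1 : ℝ) ≤ Real.exp (1 / 200 * t) := Real.one_le_exp (by positivity)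
    have h3 : (7 : ℝ) ≤ Real.exp 2 := by
      have h4 := Real.exp_one_gt_d9
      have h5 : Real.exp 2 = Real.exp 1 * Real.exp 1 := by
        rw [← Real.exp_add]
        norm_num
      nlinarith
    nlinarith

end Pool.Agent.V1143.EC
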