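import Pool.Agent.V1143.EC.Pos

/-!
The positive resonator on a subgroup of characters.
-/

set_option autoImplicit false

open Finset

namespace Pool.Agent.V1143.EC

variable {q : ℕ} [hq : Fact q.Prime]

/-- the resonator -/
noncomputable def R (P : Finset ℕ) (χ : DirichletCharacter ℂ q) : ℂ :=
  ∏ p ∈ P, (1 - ((1 / 2 : ℝ) : ℂ) * χ (p : ZMod q))⁻¹

theorem cop {n : ℕ} (h : n.Coprime q) : ∃ g : (ZMod q)ˣ, (n : ZMod q) = (g : ZMod q) :=
  ⟨ZMod.unitOfCoprime n h, (ZMod.coe_unitOfCoprime n h).symm⟩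

theorem pos_R {P : Finset ℕ} (hP : ∀ p ∈ P, p.Coprime q) : Pos (q := q) (R P) := by
  refine Pos.prod P fun p hp => ?_
  obtain ⟨g, hg⟩ := cop (hP p hp)
  rw [hg]
  exact Pos.geom g (by norm_num) (by norm_num)

/-- the sum over the subgroup against a character value -/
noncomputable def S (P : Finset ℕ) (H : Subgroup (DirichletCharacter ℂ q)) [Fintype H] (n : ℕ) : ℝ :=
  (∑ χ : H, (R P (χ : DirichletCharacter ℂ q) * (starRingEnd ℂ) (R P (χ : DirichletCharacter ℂ q))) *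
    (χ : DirichletCharacter ℂ q) (n : ZMod q)).re

variable {P : Finset ℕ} (H : Subgroup (DirichletCharacter ℂ q)) [Fintype H]

theorem S_nonneg (hP : ∀ p ∈ P, p.Coprime q) (n : ℕ) : 0 ≤ S P H n := by
  by_cases hn : n.Coprime q
  · obtain ⟨g, hg⟩ := cop hn
    have h1 := (((pos_R hP).mul (pos_R hP).conj).mul (Pos.ev g)).sum_subgroup H
    unfold S
    rw [hg]
    exact h1
  · have h0 : (n : ZMod q) = 0 := by
      rw [ZMod.natCast_eq_zero_iff]
      by_contra h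
      exact hn (Nat.Coprime.symm ((Nat.Prime.coprime_iff_not_dvd hq.out).2 h))
    unfold S
    rw [h0]
    have : ∀ χ : DirichletCharacter ℂ q, χ 0 = 0 := fun χ => MulChar.map_zero χ
    simp [this]

theorem S_step (hP : ∀ p ∈ P, p.Coprime q) {p : ℕ} (hp : p ∈ P) {n : ℕ} (hn : n.Coprime q) :
    1 / 2 * S P H n ≤ S P H (p * n) := by
  classical
  obtain ⟨g, hg⟩ := cop (hP p hp)
  obtain ⟨k, hk⟩ := cop hn
  have hP' : ∀ r ∈ P.erase p, r.Coprime q := fun r hr => hP r (mem_of_mem_erase hr)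
  have h1 := ((((pos_R hP).mul (pos_R hP').conj).mul (Pos.ev g)).mul (Pos.ev k)).sum_subgroup H
  have h2 : S P H (p * n) - 1 / 2 * S P H n = (∑ χ : H,
      R P (χ : DirichletCharacter ℂ q) * (starRingEnd ℂ) (R (P.erase p) (χ : DirichletCharacter ℂ q)) *
        (χ : DirichletCharacter ℂ q) (g : ZMod q) * (χ : DirichletCharacter ℂ q) (k : ZMod q)).re := by
    unfold S
    rw [← Complex.re_ofReal_mul, ← Complex.sub_re]
    congr 1
    rw [mul_sum, ← sum_sub_distrib]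
    refine sum_congr rfl fun χ' _ => ?_
    generalize (χ' : DirichletCharacter ℂ q) = χ
    rw [Nat.cast_mul, map_mul, hg, hk]
    have h3 : R P χ = (1 - ((1 / 2 : ℝ) : ℂ) * χ (g : ZMod q))⁻¹ * R (P.erase p) χ := by
      unfold R
      rw [← mul_prod_erase P _ hp, hg]
    have h4 : (starRingEnd ℂ) (R P χ) =
        (1 - ((1 / 2 : ℝ) : ℂ) * (starRingEnd ℂ) (χ (g : ZMod q)))⁻¹ *
          (starRingEnd ℂ) (R (P.erase p) χ) := by
      rw [h3, map_mul, map_inv₀, map_sub, map_one, map_mul, Complex.conj_ofReal]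
    have h5 : χ (g : ZMod q) * (starRingEnd ℂ) (χ (g : ZMod q)) = 1 := by
      rw [Complex.mul_conj, Complex.normSq_eq_norm_sq, DirichletCharacter.unit_norm_eq_one χ g]
      norm_num
    have h6 : (1 - ((1 / 2 : ℝ) : ℂ) * (starRingEnd ℂ) (χ (g : ZMod q))) ≠ 0 := by
      rw [conj_eval]
      exact one_sub_ne χ g⁻¹ (by norm_num) (by norm_num)
    have h7 : χ (g : ZMod q) - ((1 / 2 : ℝ) : ℂ) =
        χ (g : ZMod q) * (1 - ((1 / 2 : ℝ) : ℂ) * (starRingEnd ℂ) (χ (g : ZMod q))) := by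
      linear_combination ((1 / 2 : ℝ) : ℂ) * h5
    rw [h4]
    calc R P χ * ((1 - ((1 / 2 : ℝ) : ℂ) * (starRingEnd ℂ) (χ (g : ZMod q)))⁻¹ *
          (starRingEnd ℂ) (R (P.erase p) χ)) * (χ (g : ZMod q) * χ (k : ZMod q)) -
        ((1 / 2 : ℝ) : ℂ) * (R P χ * ((1 - ((1 / 2 : ℝ) : ℂ) * (starRingEnd ℂ) (χ (g : ZMod q)))⁻¹ *
          (starRingEnd ℂ) (R (P.erase p) χ)) * χ (k : ZMod q)) =
        R P χ * (starRingEnd ℂ) (R (P.erase p) χ) * χ (k : ZMod q) *
          ((χ (g : ZMod q) - ((1 / 2 : ℝ) : ℂ)) *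
            (1 - ((1 / 2 : ℝ) : ℂ) * (starRingEnd ℂ) (χ (g : ZMod q)))⁻¹) := by ring
      _ = R P χ * (starRingEnd ℂ) (R (P.erase p) χ) * χ (k : ZMod q) * χ (g : ZMod q) := by
          rw [h7, mul_assoc (χ (g : ZMod q)), mul_inv_cancel₀ h6, mul_one]
      _ = _ := by ring
  have h3 : 0 ≤ S P H (p * n) - 1 / 2 * S P H n := h2 ▸ h1
  linarith

theorem S_prod (hP : ∀ p ∈ P, p.Coprime q) (s : Finset ℕ) (hs : s ⊆ P) :
    (1 / 2) ^ s.card * S P H 1 ≤ S P H (∏ p ∈ s, p) := by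
  classical
  induction s using Finset.induction_on with
  | empty => simp
  | insert a s ha ih =>
    rw [card_insert_of_notMem ha, prod_insert ha, pow_succ, mul_right_comm]
    have h1 := ih ((subset_insert a s).trans hs)
    have h2 := S_step H hP (hs (mem_insert_self a s)) (n := ∏ p ∈ s, p)
      (Nat.Coprime.prod_left fun p hp => hP p (hs (mem_insert_of_mem hp)))
    linarith

/-- the Dirichlet polynomial -/
noncomputable def T (w : ℕ → ℝ) (N : ℕ) (χ : DirichletCharacter ℂ q) : ℂ :=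
  ∑ n ∈ range (N + 1), (w n : ℂ) * χ (n : ZMod q)

theorem prod_inj : Set.InjOn (fun s : Finset ℕ => ∏ p ∈ s, p) {s | ∀ p ∈ s, p.Prime} := by
  intro s hs t ht h
  have h1 := Nat.primeFactors_prod hs
  have h2 := Nat.primeFactors_prod ht
  rw [← h1, ← h2]
  exact congrArg _ h

theorem core (hPp : ∀ p ∈ P, p.Prime) (hP : ∀ p ∈ P, p.Coprime q) (w : ℕ → ℝ) (N : ℕ)
    (hw : ∀ n ∈ range (N + 1), 0 ≤ w n) (k : ℕ) (w₀ : ℝ) (hw0 : 0 ≤ w₀)
    (h : ∀ s ∈ powersetCard k P, ∏ p ∈ s, p ≤ N ∧ w₀ ≤ w (∏ p ∈ s, p)) :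
    (P.card.choose k) * w₀ * (1 / 2) ^ k * S P H 1 ≤
      (∑ χ : H, (R P (χ : DirichletCharacter ℂ q) *
        (starRingEnd ℂ) (R P (χ : DirichletCharacter ℂ q))) *
        T w N (χ : DirichletCharacter ℂ q)).re := by
  classical
  have h1 : (∑ χ : H, (R P (χ : DirichletCharacter ℂ q) *
        (starRingEnd ℂ) (R P (χ : DirichletCharacter ℂ q))) *
        T w N (χ : DirichletCharacter ℂ q)).re = ∑ n ∈ range (N + 1), w n * S P H n := by
    unfold T S
    simp_rw [mul_sum]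
    rw [sum_comm, Complex.re_sum]
    refine sum_congr rfl fun n _ => ?_
    rw [← Complex.re_ofReal_mul, mul_sum]
    congr 1
    refine sum_congr rfl fun χ _ => ?_
    ring
  rw [h1]
  have hS := S_nonneg H hP
  have hsub : (powersetCard k P).image (fun s => ∏ p ∈ s, p) ⊆ range (N + 1) := by
    intro n hn
    obtain ⟨s, hs, rfl⟩ := mem_image.1 hn
    exact mem_range.2 (Nat.lt_succ_of_le (h s hs).1)
  refine le_trans ?_ (sum_le_sum_of_subset_of_nonneg hsub fun n hn _ => mul_nonneg (hw n hn) (hS n))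
  rw [sum_image]
  · have h2 : ∀ s ∈ powersetCard k P, w₀ * ((1 / 2) ^ k * S P H 1) ≤
        w (∏ p ∈ s, p) * S P H (∏ p ∈ s, p) := by
      intro s hs
      have h3 := S_prod H hP s (mem_powersetCard.1 hs).1
      rw [(mem_powersetCard.1 hs).2] at h3
      exact mul_le_mul (h s hs).2 h3 (mul_nonneg (by positivity) (hS 1)) (hw0.trans (h s hs).2)
    calc (P.card.choose k) * w₀ * (1 / 2) ^ k * S P H 1 =
        ∑ s ∈ powersetCard k P, w₀ * ((1 / 2) ^ k * S P H 1) := by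
          rw [sum_const, card_powersetCard, nsmul_eq_mul]
          ring
      _ ≤ _ := sum_le_sum h2
  · intro s hs t ht hst
    exact prod_inj (fun p hp => hPp p ((mem_powersetCard.1 hs).1 hp))
      (fun p hp => hPp p ((mem_powersetCard.1 ht).1 hp)) hst

/-- bounds for the resonator -/
theorem R_bounds (hP : ∀ p ∈ P, p.Coprime q) (χ : DirichletCharacter ℂ q) :
    (2 / 3) ^ P.card ≤ ‖R P χ‖ ∧ ‖R P χ‖ ≤ 2 ^ P.card := by
  unfold R
  rw [norm_prod]
  have h1 : ∀ p ∈ P, (2 / 3 : ℝ) ≤ ‖(1 - ((1 / 2 : ℝ) : ℂ) * χ (p : ZMod q))⁻¹‖ ∧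
      ‖(1 - ((1 / 2 : ℝ) : ℂ) * χ (p : ZMod q))⁻¹‖ ≤ 2 := by
    intro p hp
    obtain ⟨g, hg⟩ := cop (hP p hp)
    rw [hg]
    have h2 : ‖((1 / 2 : ℝ) : ℂ) * χ (g : ZMod q)‖ = 1 / 2 := by
      rw [norm_mul, DirichletCharacter.unit_norm_eq_one χ g, mul_one, Complex.norm_real]
      norm_num
    have h3 : ‖(1 : ℂ) - ((1 / 2 : ℝ) : ℂ) * χ (g : ZMod q)‖ ≤ 3 / 2 := by
      refine (norm_sub_le _ _).trans ?_
      rw [h2, norm_one]
      norm_num
    have h4 : 1 / 2 ≤ ‖(1 : ℂ) - ((1 / 2 : ℝ) : ℂ) * χ (g : ZMod q)‖ := by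
      have := norm_sub_norm_le (1 : ℂ) (((1 / 2 : ℝ) : ℂ) * χ (g : ZMod q))
      rw [h2, norm_one] at this
      linarith
    rw [norm_inv]
    constructor
    · exact le_trans (by norm_num) (inv_anti₀ (by linarith) h3)
    · exact (inv_anti₀ (by norm_num) h4).trans (by norm_num)
  constructor
  · rw [← prod_const]
    exact prod_le_prod (fun _ _ => by norm_num) fun p hp => (h1 p hp).1
  · rw [← prod_const]
    exact prod_le_prod (fun _ _ => norm_nonneg _) fun p hp => (h1 p hp).2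

theorem S_one : S P H 1 = ∑ χ : H, ‖R P (χ : DirichletCharacter ℂ q)‖ ^ 2 := by
  unfold S
  rw [Complex.re_sum]
  refine sum_congr rfl fun χ _ => ?_
  rw [Nat.cast_one, map_one, mul_one, Complex.mul_conj, Complex.normSq_eq_norm_sq,
    Complex.ofReal_re]

/-- The resonance inequality. -/
theorem resonance (hPp : ∀ p ∈ P, p.Prime) (hP : ∀ p ∈ P, p.Coprime q) (w : ℕ → ℝ) (N : ℕ)
    (hw : ∀ n ∈ range (N + 1), 0 ≤ w n) (k : ℕ) (w₀ : ℝ) (hw0 : 0 ≤ w₀)
    (h : ∀ s ∈ powersetCard k P, ∏ p ∈ s, p ≤ N ∧ w₀ ≤ w (∏ p ∈ s, p))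
    (V : ℝ) (hV0 : 0 ≤ V)
    (hV : ∀ χ ∈ H, χ ≠ 1 → ‖T w N χ‖ ≤ V)
    (hsmall : 9 ^ P.card * ∑ n ∈ range (N + 1), w n ≤ Nat.card H) :
    (P.card.choose k) * w₀ * (1 / 2) ^ k ≤ V + 1 := by
  classical
  have h1 := core H hPp hP w N hw k w₀ hw0 h
  set m := P.card with hm
  have hS1 := S_one (P := P) H
  have hcard : (Nat.card H : ℝ) * (4 / 9) ^ m ≤ S P H 1 := by
    rw [hS1, Nat.card_eq_fintype_card]
    have : ∀ χ ∈ (univ : Finset H), ((4 / 9 : ℝ)) ^ m ≤ ‖R P (χ : DirichletCharacter ℂ q)‖ ^ 2 := by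
      intro χ _
      have h2 := (R_bounds hP (χ : DirichletCharacter ℂ q)).1
      rw [show (4 / 9 : ℝ) = (2 / 3) ^ 2 by norm_num, ← pow_mul, mul_comm, pow_mul]
      exact pow_le_pow_left₀ (by positivity) h2 2
    have h3 := card_nsmul_le_sum univ _ _ this
    rw [nsmul_eq_mul, card_univ] at h3
    exact h3
  have hS0 : 0 < S P H 1 := by
    refine lt_of_lt_of_le ?_ hcard
    have : (0 : ℝ) < Nat.card H := by
      exact_mod_cast Nat.card_pos
    positivity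
  have hT1 : ‖T w N (1 : DirichletCharacter ℂ q)‖ ≤ ∑ n ∈ range (N + 1), w n := by
    unfold T
    refine (norm_sum_le _ _).trans (sum_le_sum fun n hn => ?_)
    rw [norm_mul, Complex.norm_real, Real.norm_eq_abs, abs_of_nonneg (hw n hn)]
    exact mul_le_of_le_one_right (hw n hn) (DirichletCharacter.norm_le_one _ _)
  have hW : 0 ≤ ∑ n ∈ range (N + 1), w n := sum_nonneg hw
  have hprinc : ‖R P (1 : DirichletCharacter ℂ q)‖ ^ 2 * ‖T w N (1 : DirichletCharacter ℂ q)‖ ≤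
      S P H 1 := by
    have h2 := (R_bounds hP (1 : DirichletCharacter ℂ q)).2
    have h3 : ‖R P (1 : DirichletCharacter ℂ q)‖ ^ 2 ≤ 4 ^ m := by
      rw [show (4 : ℝ) = 2 ^ 2 by norm_num, ← pow_mul, mul_comm, pow_mul]
      exact pow_le_pow_left₀ (norm_nonneg _) h2 2
    calc _ ≤ 4 ^ m * ∑ n ∈ range (N + 1), w n := mul_le_mul h3 hT1 (norm_nonneg _) (by positivity)
      _ = (9 ^ m * ∑ n ∈ range (N + 1), w n) * (4 / 9) ^ m := by
          rw [div_pow]
          field_simp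
      _ ≤ Nat.card H * (4 / 9) ^ m := mul_le_mul_of_nonneg_right hsmall (by positivity)
      _ ≤ _ := hcard
  have hup : (∑ χ : H, (R P (χ : DirichletCharacter ℂ q) *
        (starRingEnd ℂ) (R P (χ : DirichletCharacter ℂ q))) *
        T w N (χ : DirichletCharacter ℂ q)).re ≤ (V + 1) * S P H 1 := by
    refine (Complex.re_le_norm _).trans ((norm_sum_le _ _).trans ?_)
    have h2 : ∀ χ : H, ‖(R P (χ : DirichletCharacter ℂ q) *
        (starRingEnd ℂ) (R P (χ : DirichletCharacter ℂ q))) *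
        T w N (χ : DirichletCharacter ℂ q)‖ = ‖R P (χ : DirichletCharacter ℂ q)‖ ^ 2 *
          ‖T w N (χ : DirichletCharacter ℂ q)‖ := by
      intro χ
      rw [norm_mul, norm_mul, Complex.norm_conj, sq]
    simp_rw [h2]
    rw [← add_sum_erase univ _ (mem_univ (1 : H))]
    have h3 : ∑ χ ∈ (univ : Finset H).erase 1, ‖R P (χ : DirichletCharacter ℂ q)‖ ^ 2 *
          ‖T w N (χ : DirichletCharacter ℂ q)‖ ≤ V * S P H 1 := by
      rw [hS1, mul_sum]
      refine (sum_le_sum fun χ hχ => ?_).trans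
        (sum_le_sum_of_subset_of_nonneg (erase_subset _ _) fun χ _ _ =>
          mul_nonneg hV0 (sq_nonneg ‖R P (χ : DirichletCharacter ℂ q)‖))
      rw [mul_comm V]
      refine mul_le_mul_of_nonneg_left (hV χ χ.2 ?_) (sq_nonneg _)
      intro h4
      exact (ne_of_mem_erase hχ) (Subtype.ext h4)
    have h4 : ((1 : H) : DirichletCharacter ℂ q) = 1 := rfl
    rw [h4]
    nlinarith [hprinc, h3]
  exact le_of_mul_le_mul_right (h1.trans hup) hS0

end Pool.Agent.V1143.EC
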