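import Pool.Agent.V1143.EC.Ana

/-!
The resonance inequality with explicit parameters.
-/

set_option autoImplicit false

open Finset

namespace Pool.Agent.V1143.EC

theorem sum_sqrt (N : ℕ) : ∑ n ∈ range (N + 1), w N n ≤ 2 * Real.sqrt N := by
  have key : ∀ M : ℕ, ∑ n ∈ range (M + 1), (if n = 0 then (0 : ℝ) else (n : ℝ) ^ (-(1 / 2) : ℝ)) ≤
      2 * Real.sqrt M := by
    intro M
    induction M with
    | zero => simp
    | succ M ih =>
      rw [sum_range_succ]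
      have h1 : (if M + 1 = 0 then (0 : ℝ) else ((M + 1 : ℕ) : ℝ) ^ (-(1 / 2) : ℝ)) ≤
          2 * Real.sqrt ((M + 1 : ℕ) : ℝ) - 2 * Real.sqrt M := by
        rw [if_neg (Nat.succ_ne_zero M)]
        have h0 : (0 : ℝ) < ((M + 1 : ℕ) : ℝ) := by exact_mod_cast Nat.succ_pos M
        rw [Real.rpow_neg h0.le, ← Real.sqrt_eq_rpow]
        have hs : 0 < Real.sqrt ((M + 1 : ℕ) : ℝ) := Real.sqrt_pos.2 h0
        have h2 : Real.sqrt ((M + 1 : ℕ) : ℝ) ^ 2 = (M : ℝ) + 1 := by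
          rw [Real.sq_sqrt h0.le]
          push_cast
          rfl
        have h3 : Real.sqrt (M : ℝ) ^ 2 = M := Real.sq_sqrt (Nat.cast_nonneg M)
        have h4 : Real.sqrt (M : ℝ) ≤ Real.sqrt ((M + 1 : ℕ) : ℝ) :=
          Real.sqrt_le_sqrt (by push_cast; linarith)
        have h5 : 0 ≤ Real.sqrt (M : ℝ) := Real.sqrt_nonneg _
        rw [inv_le_iff_one_le_mul₀ hs]
        nlinarith
      linarith
  refine le_trans (sum_le_sum fun n hn => ?_) (key N)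
  unfold w
  split_ifs with h
  · exact le_rfl
  · have : (0 : ℝ) ≤ (N : ℝ) ^ (-(1 / 2) : ℝ) := by positivity
    linarith

theorem lower (m k B : ℕ) (hk : 1 ≤ k) (hB : 1 ≤ B) (h : 12 * k * Real.sqrt B ≤ m) :
    Real.exp k ≤ (m.choose k) * (1 / 2) ^ k * ((B ^ k : ℕ) : ℝ) ^ (-(1 / 2) : ℝ) := by
  have hB1 : (1 : ℝ) ≤ B := by exact_mod_cast hB
  have hk1 : (1 : ℝ) ≤ k := by exact_mod_cast hk
  have hs1 : 1 ≤ Real.sqrt B := by
    rw [show (1 : ℝ) = Real.sqrt 1 by simp]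
    exact Real.sqrt_le_sqrt hB1
  have hs0 : 0 < Real.sqrt B := by linarith
  have h12 : 12 * (k : ℝ) ≤ m := by
    refine le_trans ?_ h
    nlinarith
  have hkm : 12 * k ≤ m := by exact_mod_cast h12
  have h1 : (((m + 1 - k : ℕ) : ℝ) ^ k) / (k.factorial : ℝ) ≤ m.choose k := Nat.pow_le_choose k m
  have h2 : (m : ℝ) / 2 ≤ ((m + 1 - k : ℕ) : ℝ) := by
    rw [Nat.cast_sub (by omega)]
    push_cast
    linarith
  have h3 : (k.factorial : ℝ) ≤ (k : ℝ) ^ k := by exact_mod_cast Nat.factorial_le_pow k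
  have hk0 : (0 : ℝ) < k := by linarith
  have h4 : ((m : ℝ) / 2 / k) ^ k ≤ m.choose k := by
    refine le_trans ?_ h1
    rw [div_pow]
    refine div_le_div₀ (by positivity) (pow_le_pow_left₀ (by positivity) h2 k)
      (by exact_mod_cast Nat.factorial_pos k) h3
  have h5 : ((B ^ k : ℕ) : ℝ) ^ (-(1 / 2) : ℝ) = ((Real.sqrt B)⁻¹) ^ k := by
    have hB0 : (0 : ℝ) ≤ B := by linarith
    rw [Nat.cast_pow, ← Real.rpow_natCast (B : ℝ) k, ← Real.rpow_mul hB0, mul_comm,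
      Real.rpow_mul hB0, Real.rpow_natCast, Real.rpow_neg hB0, ← Real.sqrt_eq_rpow]
  rw [h5]
  calc Real.exp k = (Real.exp 1) ^ k := by rw [← Real.exp_nat_mul, mul_one]
    _ ≤ 3 ^ k := pow_le_pow_left₀ (Real.exp_pos 1).le (by
        have := Real.exp_one_lt_d9
        linarith) k
    _ ≤ ((m : ℝ) / 2 / k * (1 / 2) * (Real.sqrt B)⁻¹) ^ k := by
        refine pow_le_pow_left₀ (by norm_num) ?_ k
        rw [← div_eq_mul_inv, le_div_iff₀ hs0, div_div, div_mul_div_comm, le_div_iff₀ (by positivity)]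
        nlinarith
    _ = ((m : ℝ) / 2 / k) ^ k * (1 / 2) ^ k * ((Real.sqrt B)⁻¹) ^ k := by
        rw [mul_pow, mul_pow]
    _ ≤ _ := by
        gcongr

variable {q : ℕ} [hq : Fact q.Prime]

theorem finite_version (hq2 : q ≠ 2) (H : Subgroup (DirichletCharacter ℂ q)) (B m k N : ℕ)
    (hBq : B < q) (hm : m ≤ Nat.primeCounting B) (hk : 1 ≤ k) (hB : 1 ≤ B)
    (h12 : 12 * k * Real.sqrt B ≤ m) (hN1 : 1 ≤ N) (hN : 4 * B ^ k ≤ N)
    (hN2 : Real.sqrt q * Real.log q * (N : ℝ) ^ (-(1 / 2) : ℝ) ≤ 1)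
    (hsmall : 9 ^ m * (2 * Real.sqrt N) ≤ Nat.card H) (V : ℝ) (hV0 : 0 ≤ V)
    (hV : ∀ χ ∈ H, χ ≠ 1 → ‖DirichletCharacter.LFunction χ (1 / 2)‖ ≤ V) :
    1 / 2 * Real.exp k ≤ V + 2 := by
  classical
  have : Fintype H := Fintype.ofFinite H
  obtain ⟨P, hPs, hPc⟩ := Finset.exists_subset_card_eq
    (s := Nat.primesLE B) (n := m) (by rw [Nat.primesLE_card_eq_primeCounting]; exact hm)
  have hPp : ∀ p ∈ P, p.Prime := fun p hp => Nat.prime_of_mem_primesLE (hPs hp)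
  have hPB : ∀ p ∈ P, p ≤ B := fun p hp => Nat.le_of_mem_primesLE (hPs hp)
  have hPq : ∀ p ∈ P, p.Coprime q := fun p hp => by
    rw [Nat.coprime_primes (hPp p hp) hq.out]
    exact (lt_of_le_of_lt (hPB p hp) hBq).ne
  have hBk : (0 : ℝ) < ((B ^ k : ℕ) : ℝ) := by
    exact_mod_cast Nat.pow_pos hB
  have hNr : (0 : ℝ) < N := by exact_mod_cast hN1
  set w₀ : ℝ := 1 / 2 * ((B ^ k : ℕ) : ℝ) ^ (-(1 / 2) : ℝ) with hw₀
  have h1 := resonance (P := P) H hPp hPq (w N) N (w_nonneg N) k w₀ (by positivity) ?_ (V + 1)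
    (by linarith) ?_ ?_
  · rw [hPc] at h1
    have h2 := lower m k B hk hB h12
    have h3 : (m.choose k : ℝ) * w₀ * (1 / 2) ^ k = 1 / 2 * ((m.choose k) * (1 / 2) ^ k *
        ((B ^ k : ℕ) : ℝ) ^ (-(1 / 2) : ℝ)) := by
      rw [hw₀]
      ring
    rw [h3] at h1
    linarith
  · intro s hs
    have hsP := (mem_powersetCard.1 hs).1
    have hsc := (mem_powersetCard.1 hs).2
    have h2 : ∏ p ∈ s, p ≤ B ^ k := by
      rw [← hsc]
      exact prod_le_pow_card s _ B fun p hp => hPB p (hsP hp)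
    have h0 : 0 < ∏ p ∈ s, p := prod_pos fun p hp => (hPp p (hsP hp)).pos
    refine ⟨by omega, ?_⟩
    unfold w
    rw [if_neg h0.ne']
    have h3 : ((B ^ k : ℕ) : ℝ) ^ (-(1 / 2) : ℝ) ≤ ((∏ p ∈ s, p : ℕ) : ℝ) ^ (-(1 / 2) : ℝ) :=
      Real.rpow_le_rpow_of_nonpos (by exact_mod_cast h0) (by exact_mod_cast h2) (by norm_num)
    have h4 : (N : ℝ) ^ (-(1 / 2) : ℝ) ≤ 1 / 2 * ((B ^ k : ℕ) : ℝ) ^ (-(1 / 2) : ℝ) := by
      have h5 : (N : ℝ) ^ (-(1 / 2) : ℝ) ≤ (4 * ((B ^ k : ℕ) : ℝ)) ^ (-(1 / 2) : ℝ) :=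
        Real.rpow_le_rpow_of_nonpos (by positivity) (by exact_mod_cast hN) (by norm_num)
      refine h5.trans (le_of_eq ?_)
      rw [Real.mul_rpow (by norm_num) hBk.le]
      congr 1
      rw [Real.rpow_neg (by norm_num), ← Real.sqrt_eq_rpow, show (4 : ℝ) = 2 ^ 2 by norm_num,
        Real.sqrt_sq (by norm_num)]
      norm_num
    linarith
  · intro χ hχ hχ1
    have h2 := approx hq2 χ hχ1 N hN1
    have h3 := hV χ hχ hχ1
    calc ‖T (w N) N χ‖ = ‖DirichletCharacter.LFunction χ (1 / 2) -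
          (DirichletCharacter.LFunction χ (1 / 2) - T (w N) N χ)‖ := by congr 1; ring
      _ ≤ ‖DirichletCharacter.LFunction χ (1 / 2)‖ +
          ‖DirichletCharacter.LFunction χ (1 / 2) - T (w N) N χ‖ := norm_sub_le _ _
      _ ≤ V + 1 := by linarith
  · rw [hPc]
    refine le_trans (mul_le_mul_of_nonneg_left (sum_sqrt N) (by positivity)) hsmall

end Pool.Agent.V1143.EC
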