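import Pool.Agent.V1143.EC.Asy

/-!
Extreme central values on subgroups of characters.
-/

set_option autoImplicit false

open Finset Filter

namespace Pool.Agent.V1143.EC

variable {q : ℕ} [hq : Fact q.Prime]

/-- the subgroup of the even characters -/
def evenSub (q : ℕ) : Subgroup (DirichletCharacter ℂ q) where
  carrier := {χ | χ (-1) = 1}
  mul_mem' := fun {a b} ha hb => by
    rw [Set.mem_ofPred_eq] at ha hb ⊢
    rw [MulChar.mul_apply, ha, hb, mul_one]
  one_mem' := by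
    rw [Set.mem_ofPred_eq]
    exact MulChar.one_apply (isUnit_one.neg)
  inv_mem' := fun {a} ha => by
    rw [Set.mem_ofPred_eq] at ha ⊢
    rw [MulChar.inv_apply_eq_inv, ha, Ring.inverse_one]

theorem even_card (H : Subgroup (DirichletCharacter ℂ q)) :
    (Nat.card H : ℝ) ≤ 2 * Nat.card (H ⊓ evenSub q : Subgroup (DirichletCharacter ℂ q)) := by
  classical
  by_cases h : ∃ χ₁ ∈ H, ¬ χ₁ (-1) = 1
  · obtain ⟨χ₁, h1, h2⟩ := h
    have h3 : χ₁ (-1) = -1 := (DirichletCharacter.even_or_odd χ₁).resolve_left h2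
    let Φ : H → (H ⊓ evenSub q : Subgroup (DirichletCharacter ℂ q)) × Bool := fun χ =>
      if hχ : (χ : DirichletCharacter ℂ q) (-1) = 1 then
        (⟨χ, ⟨χ.2, hχ⟩⟩, true)
      else
        (⟨χ * χ₁, ⟨H.mul_mem χ.2 h1, by
          have h4 : (χ : DirichletCharacter ℂ q) (-1) = -1 :=
            (DirichletCharacter.even_or_odd (χ : DirichletCharacter ℂ q)).resolve_left hχ
          show ((χ : DirichletCharacter ℂ q) * χ₁) (-1) = 1
          rw [MulChar.mul_apply, h4, h3]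
          norm_num⟩⟩, false)
    have hΦ : Function.Injective Φ := by
      intro a b hab
      by_cases ha : (a : DirichletCharacter ℂ q) (-1) = 1
      · by_cases hb : (b : DirichletCharacter ℂ q) (-1) = 1
        · simp only [Φ, dif_pos ha, dif_pos hb, Prod.mk.injEq, and_true, Subtype.mk.injEq] at hab
          exact Subtype.ext hab
        · simp only [Φ, dif_pos ha, dif_neg hb, Prod.mk.injEq] at hab
          exact absurd hab.2 (by simp)
      · by_cases hb : (b : DirichletCharacter ℂ q) (-1) = 1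
        · simp only [Φ, dif_neg ha, dif_pos hb, Prod.mk.injEq] at hab
          exact absurd hab.2 (by simp)
        · simp only [Φ, dif_neg ha, dif_neg hb, Prod.mk.injEq, and_true, Subtype.mk.injEq] at hab
          exact Subtype.ext (mul_right_cancel hab)
    have h5 := Nat.card_le_card_of_injective Φ hΦ
    rw [Nat.card_prod, Nat.card_eq_fintype_card (α := Bool), Fintype.card_bool] at h5
    have h6 : (Nat.card H : ℝ) ≤
        (Nat.card (H ⊓ evenSub q : Subgroup (DirichletCharacter ℂ q)) : ℝ) * 2 := by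
      exact_mod_cast h5
    linarith
  · push Not at h
    have h1 : H ⊓ evenSub q = H := inf_eq_left.2 fun χ hχ => h χ hχ
    rw [h1]
    have : (0 : ℝ) ≤ Nat.card H := Nat.cast_nonneg _
    linarith

theorem card_le (H : Subgroup (DirichletCharacter ℂ q)) : (Nat.card H : ℝ) ≤ q := by
  have h1 : Nat.card H ≤ Nat.card (DirichletCharacter ℂ q) :=
    Nat.card_le_card_of_injective _ H.subtype_injective
  have h2 := DirichletCharacter.card_eq_totient_of_hasEnoughRootsOfUnity ℂ q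
  rw [h2] at h1
  exact_mod_cast h1.trans (Nat.totient_le q)

theorem main : ∃ Z₀ : ℝ, ∀ (q : ℕ) [Fact q.Prime] (H : Subgroup (DirichletCharacter ℂ q)) (Z : ℝ),
    Z₀ ≤ Z → Real.sqrt q * Real.log q * Z ≤ Nat.card H →
    ∃ χ ∈ H, χ.Even ∧ χ ≠ 1 ∧
      Real.exp (1 / 200 * Real.sqrt (Real.log Z / Real.log (Real.log Z))) ≤
        ‖DirichletCharacter.LFunction χ (1 / 2)‖ := by
  have h1 := Real.tendsto_log_atTop.eventually params
  obtain ⟨Z₁, hZ₁⟩ := eventually_atTop.1 h1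
  refine ⟨max Z₁ 10, fun q _ H Z hZ hH => ?_⟩
  have hZ1 : Z₁ ≤ Z := (le_max_left _ _).trans hZ
  have hZ10 : 10 ≤ Z := (le_max_right _ _).trans hZ
  have hZ0 : 0 < Z := by linarith
  obtain ⟨B, m, k, hB, hBZ, hm, hk, h12, h4, h9, hfin⟩ := hZ₁ Z hZ1
  rw [Real.exp_log hZ0] at hBZ h4 h9
  have hqp : q.Prime := Fact.out
  have hcard := card_le H
  have hq2' : 2 ≤ q := hqp.two_le
  have hq2 : q ≠ 2 := by
    rintro rfl
    have h5 := Real.log_two_gt_d9
    have h6 : 1 ≤ Real.sqrt ((2 : ℕ) : ℝ) := by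
      rw [Real.one_le_sqrt]
      norm_num
    have h7 : 0.6 ≤ Real.sqrt ((2 : ℕ) : ℝ) * Real.log ((2 : ℕ) : ℝ) := by
      push_cast at h6 ⊢
      nlinarith
    have h8 := hH.trans hcard
    push_cast at h7 h8
    nlinarith
  have hq3 : 3 ≤ q := by omega
  have hqr : (3 : ℝ) ≤ q := by exact_mod_cast hq3
  have hlog : 1 ≤ Real.log q := by
    rw [Real.le_log_iff_exp_le (by linarith)]
    have := Real.exp_one_lt_d9
    linarith
  have hs1 : 1 ≤ Real.sqrt q := by
    rw [Real.one_le_sqrt]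
    linarith
  have hss : Real.sqrt q * Real.sqrt q = q := Real.mul_self_sqrt (by linarith)
  set a := Real.sqrt q * Real.log q with ha
  have ha1 : 1 ≤ a := by nlinarith
  have hZq : Z ≤ q := by
    have : Z ≤ a * Z := by nlinarith
    exact this.trans (hH.trans hcard)
  have ha2 : a ^ 2 = q * Real.log q ^ 2 := by
    rw [ha, mul_pow, sq (Real.sqrt q), hss]
  set N : ℕ := ⌈a ^ 2⌉₊ with hN
  have hN1 : a ^ 2 ≤ N := Nat.le_ceil _
  have hN2 : (N : ℝ) < a ^ 2 + 1 := Nat.ceil_lt_add_one (by positivity)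
  have hNq : (q : ℝ) ≤ N := by
    refine le_trans ?_ hN1
    rw [ha2]
    have h5 : 1 ≤ Real.log q ^ 2 := one_le_pow₀ hlog
    nlinarith
  have hNpos : (0 : ℝ) < N := by linarith
  have hE := even_card H
  by_contra hcon
  push Not at hcon
  set V := Real.exp (1 / 200 * Real.sqrt (Real.log Z / Real.log (Real.log Z))) with hV
  have key := finite_version (q := q) hq2 (H ⊓ evenSub q) B m k N ?_ hm hk hB h12 ?_ ?_ ?_ ?_ V
    (Real.exp_pos _).le ?_
  · linarith
  · have : (B : ℝ) < q := by linarith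
    exact_mod_cast this
  · have : (1 : ℝ) ≤ N := by linarith
    exact_mod_cast this
  · have : 4 * ((B ^ k : ℕ) : ℝ) ≤ N := by linarith
    exact_mod_cast this
  · have h5 : (N : ℝ) ^ (-(1 / 2) : ℝ) ≤ (a ^ 2) ^ (-(1 / 2) : ℝ) :=
      Real.rpow_le_rpow_of_nonpos (by positivity) hN1 (by norm_num)
    have h6 : (a ^ 2) ^ (-(1 / 2) : ℝ) = a⁻¹ := by
      rw [Real.rpow_neg (by positivity), ← Real.sqrt_eq_rpow, Real.sqrt_sq (by linarith)]
    rw [h6] at h5
    calc a * (N : ℝ) ^ (-(1 / 2) : ℝ) ≤ a * a⁻¹ := mul_le_mul_of_nonneg_left h5 (by linarith)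
      _ = 1 := mul_inv_cancel₀ (by linarith)
  · have h5 : Real.sqrt N ≤ 2 * a := by
      rw [Real.sqrt_le_left (by linarith)]
      nlinarith
    have h6 : (0 : ℝ) < 9 ^ m := by positivity
    calc (9 : ℝ) ^ m * (2 * Real.sqrt N) ≤ 9 ^ m * (2 * (2 * a)) := by gcongr
      _ = (9 ^ m * 8) * (a / 2) := by ring
      _ ≤ Z * (a / 2) := mul_le_mul_of_nonneg_right h9 (by linarith)
      _ = (a * Z) / 2 := by ring
      _ ≤ Nat.card H / 2 := by linarith
      _ ≤ _ := by linarith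
  · intro χ hχ hχ1
    exact (hcon χ hχ.1 hχ.2 hχ1).le

theorem powers (ε : ℝ) (h0 : 0 < ε) (h1 : ε ≤ 1 / 2) :
    ∃ q₀ : ℕ, ∀ (q : ℕ) [Fact q.Prime], q₀ ≤ q → ∀ H : Subgroup (DirichletCharacter ℂ q),
      (q : ℝ) ^ (1 / 2 + ε) ≤ Nat.card H → ∃ χ ∈ H, χ.Even ∧ χ ≠ 1 ∧
        Real.exp (Real.sqrt ε / 300 * Real.sqrt (Real.log q / Real.log (Real.log q))) ≤
          ‖DirichletCharacter.LFunction χ (1 / 2)‖ := by
  obtain ⟨Z₀, hZ₀⟩ := main
  have e1 : ∀ᶠ x : ℝ in atTop, Z₀ ≤ x ^ (ε / 2) :=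
    (tendsto_rpow_atTop (by linarith)).eventually_ge_atTop Z₀
  have e2 : ∀ᶠ x : ℝ in atTop, Real.log x ≤ x ^ (ε / 2) := by
    have := isLittleO_log_rpow_atTop (show 0 < ε / 2 by linarith)
    filter_upwards [this.bound one_pos, eventually_ge_atTop 1] with x hx hx1
    rw [one_mul, Real.norm_eq_abs, Real.norm_eq_abs, abs_of_nonneg (Real.log_nonneg hx1),
      abs_of_nonneg (by positivity)] at hx
    exact hx
  have e3 : ∀ᶠ x : ℝ in atTop, 4 / ε ≤ Real.log x := Real.tendsto_log_atTop.eventually_ge_atTop _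
  obtain ⟨x₀, hx₀⟩ := eventually_atTop.1 (e1.and (e2.and (e3.and (eventually_ge_atTop (10 : ℝ)))))
  refine ⟨⌈x₀⌉₊, fun q _ hq H hH => ?_⟩
  obtain ⟨f1, f2, f3, f4⟩ := hx₀ q ((Nat.le_ceil _).trans (by exact_mod_cast hq))
  have hq0 : (0 : ℝ) < q := by linarith
  have h2 : Real.sqrt q * Real.log q * (q : ℝ) ^ (ε / 2) ≤ Nat.card H := by
    refine le_trans ?_ hH
    have h3 : (q : ℝ) ^ (1 / 2 + ε) = Real.sqrt q * (q : ℝ) ^ (ε / 2) * (q : ℝ) ^ (ε / 2) := by
      rw [Real.sqrt_eq_rpow, ← Real.rpow_add hq0, ← Real.rpow_add hq0]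
      congr 1
      ring
    rw [h3]
    gcongr
  obtain ⟨χ, hχ, he, hne, hL⟩ := hZ₀ q H ((q : ℝ) ^ (ε / 2)) f1 h2
  refine ⟨χ, hχ, he, hne, le_trans (Real.exp_le_exp.2 ?_) hL⟩
  rw [Real.log_rpow hq0]
  set l := Real.log q with hl
  have hl8 : 8 ≤ l := by
    refine le_trans ?_ f3
    rw [le_div_iff₀ h0]
    linarith
  have h3 : 2 ≤ ε / 2 * l := by
    have := (div_le_iff₀ h0).1 f3
    linarith
  have h4 : 0 < Real.log (ε / 2 * l) := Real.log_pos (by linarith)
  have h5 : Real.log (ε / 2 * l) ≤ Real.log l := Real.log_le_log (by linarith) (by nlinarith)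
  have h6 : ε / 2 * (l / Real.log l) ≤ ε / 2 * l / Real.log (ε / 2 * l) := by
    rw [← mul_div_assoc]
    exact div_le_div_of_nonneg_left (by linarith) h4 h5
  have h7 : Real.sqrt (ε / 2 * (l / Real.log l)) ≤ Real.sqrt (ε / 2 * l / Real.log (ε / 2 * l)) :=
    Real.sqrt_le_sqrt h6
  have h8 : Real.sqrt (ε / 2 * (l / Real.log l)) =
      Real.sqrt ε * Real.sqrt (1 / 2) * Real.sqrt (l / Real.log l) := by
    rw [← Real.sqrt_mul h0.le, ← Real.sqrt_mul (by positivity)]
    congr 1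
    ring
  have h9 : (0.7 : ℝ) ≤ Real.sqrt (1 / 2) := by
    refine Real.le_sqrt_of_sq_le ?_
    norm_num
  have h10 : 0 ≤ Real.sqrt ε * Real.sqrt (l / Real.log l) := by positivity
  rw [h8] at h7
  nlinarith

end Pool.Agent.V1143.EC
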