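import Mathlib

/-!
Nonnegative combinations of evaluations on the group of Dirichlet characters modulo a prime.
-/

set_option autoImplicit false

open Finset

namespace Pool.Agent.V1143.EC

variable {q : ℕ} [Fact q.Prime]

/-- a nonnegative combination of evaluations -/
def Pos (F : DirichletCharacter ℂ q → ℂ) : Prop :=
  ∃ c : (ZMod q)ˣ → ℝ, (∀ g, 0 ≤ c g) ∧ ∀ χ, F χ = ∑ g, (c g : ℂ) * χ (g : ZMod q)

theorem Pos.ev (g : (ZMod q)ˣ) : Pos (q := q) (fun χ => χ (g : ZMod q)) := by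
  classical
  refine ⟨fun h => if h = g then 1 else 0, fun h => by dsimp; split_ifs <;> norm_num,
    fun χ => ?_⟩
  rw [Finset.sum_eq_single g]
  · simp
  · intro b _ hb
    simp [hb]
  · intro h
    exact absurd (mem_univ _) h

theorem Pos.zero : Pos (q := q) (fun _ => 0) := ⟨fun _ => 0, fun _ => le_rfl, fun χ => by simp⟩

theorem Pos.add {F G : DirichletCharacter ℂ q → ℂ} (hF : Pos F) (hG : Pos G) :
    Pos (fun χ => F χ + G χ) := by
  obtain ⟨c, hc, h⟩ := hF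
  obtain ⟨d, hd, h'⟩ := hG
  refine ⟨fun g => c g + d g, fun g => add_nonneg (hc g) (hd g), fun χ => ?_⟩
  simp only [h, h']
  rw [← sum_add_distrib]
  refine sum_congr rfl fun g _ => ?_
  push_cast
  ring

theorem Pos.smul {F : DirichletCharacter ℂ q → ℂ} (hF : Pos F) {r : ℝ} (hr : 0 ≤ r) :
    Pos (fun χ => (r : ℂ) * F χ) := by
  obtain ⟨c, hc, h⟩ := hF
  refine ⟨fun g => r * c g, fun g => mul_nonneg hr (hc g), fun χ => ?_⟩
  simp only [h]
  rw [mul_sum]
  refine sum_congr rfl fun g _ => ?_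
  push_cast
  ring

theorem Pos.sum {ι : Type*} (s : Finset ι) {F : ι → DirichletCharacter ℂ q → ℂ}
    (h : ∀ i ∈ s, Pos (F i)) : Pos (fun χ => ∑ i ∈ s, F i χ) := by
  classical
  induction s using Finset.induction_on with
  | empty => simpa using Pos.zero
  | insert a s ha ih =>
    have h1 := (h a (mem_insert_self _ _)).add (ih fun i hi => h i (mem_insert_of_mem hi))
    simpa only [sum_insert ha] using h1

theorem Pos.mul {F G : DirichletCharacter ℂ q → ℂ} (hF : Pos F) (hG : Pos G) :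
    Pos (fun χ => F χ * G χ) := by
  obtain ⟨c, hc, h⟩ := hF
  obtain ⟨d, hd, h'⟩ := hG
  have h1 : Pos (fun χ : DirichletCharacter ℂ q => ∑ g : (ZMod q)ˣ, ∑ k : (ZMod q)ˣ,
      ((c g * d k : ℝ) : ℂ) * χ ((g * k : (ZMod q)ˣ) : ZMod q)) :=
    Pos.sum _ fun g _ => Pos.sum _ fun k _ => (Pos.ev (g * k)).smul (mul_nonneg (hc g) (hd k))
  convert h1 using 2 with χ
  rw [h, h', sum_mul_sum]
  refine sum_congr rfl fun g _ => sum_congr rfl fun k _ => ?_
  push_cast
  rw [map_mul]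
  ring

theorem Pos.one : Pos (q := q) (fun _ => 1) := by
  have := Pos.ev (q := q) 1
  simpa using this

theorem Pos.prod {ι : Type*} (s : Finset ι) {F : ι → DirichletCharacter ℂ q → ℂ}
    (h : ∀ i ∈ s, Pos (F i)) : Pos (fun χ => ∏ i ∈ s, F i χ) := by
  classical
  induction s using Finset.induction_on with
  | empty => simpa using Pos.one
  | insert a s ha ih =>
    have h1 := (h a (mem_insert_self _ _)).mul (ih fun i hi => h i (mem_insert_of_mem hi))
    simpa only [prod_insert ha] using h1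

theorem conj_eval (χ : DirichletCharacter ℂ q) (g : (ZMod q)ˣ) :
    (starRingEnd ℂ) (χ (g : ZMod q)) = χ ((g⁻¹ : (ZMod q)ˣ) : ZMod q) := by
  have h1 : ‖χ (g : ZMod q)‖ = 1 := DirichletCharacter.unit_norm_eq_one χ g
  have h2 : χ (g : ZMod q) * χ ((g⁻¹ : (ZMod q)ˣ) : ZMod q) = 1 := by
    rw [← map_mul, ← Units.val_mul, mul_inv_cancel, Units.val_one, map_one]
  have h3 : χ (g : ZMod q) * (starRingEnd ℂ) (χ (g : ZMod q)) = 1 := by
    rw [Complex.mul_conj, Complex.normSq_eq_norm_sq, h1]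
    norm_num
  have h4 : χ (g : ZMod q) ≠ 0 := by
    intro h
    rw [h, zero_mul] at h2
    exact zero_ne_one h2
  exact mul_left_cancel₀ h4 (h3.trans h2.symm)

theorem Pos.conj {F : DirichletCharacter ℂ q → ℂ} (hF : Pos F) :
    Pos (fun χ => (starRingEnd ℂ) (F χ)) := by
  obtain ⟨c, hc, h⟩ := hF
  have h1 : Pos (fun χ : DirichletCharacter ℂ q => ∑ g : (ZMod q)ˣ,
      ((c g : ℝ) : ℂ) * χ ((g⁻¹ : (ZMod q)ˣ) : ZMod q)) :=
    Pos.sum _ fun g _ => (Pos.ev g⁻¹).smul (hc g)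
  convert h1 using 2 with χ
  rw [h, map_sum]
  refine sum_congr rfl fun g _ => ?_
  rw [map_mul, conj_eval, Complex.conj_ofReal]

theorem one_sub_ne (χ : DirichletCharacter ℂ q) (g : (ZMod q)ˣ) {ρ : ℝ} (h0 : 0 ≤ ρ) (h1 : ρ < 1) :
    (1 : ℂ) - ρ * χ (g : ZMod q) ≠ 0 := by
  intro h
  have h2 : (ρ : ℂ) * χ (g : ZMod q) = 1 := by linear_combination -h
  have h3 := congrArg norm h2
  rw [norm_mul, DirichletCharacter.unit_norm_eq_one χ g, mul_one, Complex.norm_real,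
    Real.norm_eq_abs, abs_of_nonneg h0, norm_one] at h3
  linarith

theorem Pos.geom (g : (ZMod q)ˣ) {ρ : ℝ} (h0 : 0 ≤ ρ) (h1 : ρ < 1) :
    Pos (fun χ : DirichletCharacter ℂ q => (1 - (ρ : ℂ) * χ (g : ZMod q))⁻¹) := by
  have hm : 0 < orderOf g := orderOf_pos g
  set m := orderOf g with hmdef
  have hρ : ρ ^ m < 1 := pow_lt_one₀ h0 h1 hm.ne'
  have h2 : Pos (fun χ : DirichletCharacter ℂ q => ∑ k ∈ range m,
      ((ρ ^ k / (1 - ρ ^ m) : ℝ) : ℂ) * χ ((g ^ k : (ZMod q)ˣ) : ZMod q)) :=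
    Pos.sum _ fun k _ => (Pos.ev (g ^ k)).smul (div_nonneg (pow_nonneg h0 k) (by linarith))
  convert h2 using 2 with χ
  have hne := one_sub_ne χ g h0 h1
  have hz : (χ (g : ZMod q)) ^ m = 1 := by
    rw [← map_pow, ← Units.val_pow_eq_pow_val, pow_orderOf_eq_one, Units.val_one, map_one]
  have h3 : ((1 - ρ ^ m : ℝ) : ℂ) ≠ 0 := by
    rw [Complex.ofReal_ne_zero]
    exact (sub_pos.2 hρ).ne'
  have h4 : (∑ k ∈ range m, ((ρ ^ k / (1 - ρ ^ m) : ℝ) : ℂ) * χ ((g ^ k : (ZMod q)ˣ) : ZMod q)) *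
      (1 - (ρ : ℂ) * χ (g : ZMod q)) = 1 := by
    have h5 : ∀ k, ((ρ ^ k / (1 - ρ ^ m) : ℝ) : ℂ) * χ ((g ^ k : (ZMod q)ˣ) : ZMod q) =
        ((1 - ρ ^ m : ℝ) : ℂ)⁻¹ * ((ρ : ℂ) * χ (g : ZMod q)) ^ k := by
      intro k
      rw [Units.val_pow_eq_pow_val, map_pow, mul_pow]
      push_cast
      rw [div_eq_mul_inv]
      ring
    simp_rw [h5]
    rw [← mul_sum, mul_assoc, geom_sum_mul_neg, mul_pow, hz, mul_one]
    push_cast
    push_cast at h3
    exact inv_mul_cancel₀ h3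
  exact (eq_inv_of_mul_eq_one_left h4).symm

/-- Sums over a subgroup of nonnegative combinations are nonnegative. -/
theorem Pos.sum_subgroup {F : DirichletCharacter ℂ q → ℂ} (hF : Pos F)
    (H : Subgroup (DirichletCharacter ℂ q)) [Fintype H] :
    0 ≤ (∑ χ : H, F (χ : DirichletCharacter ℂ q)).re := by
  classical
  obtain ⟨c, hc, h⟩ := hF
  have h1 : ∑ χ : H, F (χ : DirichletCharacter ℂ q) =
      ∑ g : (ZMod q)ˣ, (c g : ℂ) * ∑ χ : H, (χ : DirichletCharacter ℂ q) (g : ZMod q) := by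
    simp_rw [h, mul_sum]
    rw [sum_comm]
  rw [h1, Complex.re_sum]
  refine sum_nonneg fun g _ => ?_
  rw [Complex.re_ofReal_mul]
  refine mul_nonneg (hc g) ?_
  let f : H →* ℂ :=
    { toFun := fun χ => (χ : DirichletCharacter ℂ q) (g : ZMod q)
      map_one' := by simp
      map_mul' := fun a b => by simp }
  have h2 := sum_hom_units f
  have h3 : ∑ χ : H, (χ : DirichletCharacter ℂ q) (g : ZMod q) = ∑ χ : H, f χ := rfl
  rw [h3, h2]
  split_ifs
  · simp
  · simp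

end Pool.Agent.V1143.EC
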